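import Mathlib

/-!
# Automorphisms of strongly regular graphs from hemisystems: a non-induced automorphism

`IsGQ s I`: the incidence structure `I` is a generalized quadrangle of order `(s ^ 2, s)`.
`lineGraph I H` is the graph of the problem: the lines of the hemisystem `H`, two of them adjacent when
they meet.

There is a generalized quadrangle of order `(9, 3)` with a hemisystem (Segre's hemisystem; the graph is
the Gewirtz graph on `56` vertices) and an automorphism of the graph, of order two, which is not the
restriction of a collineation fixing the hemisystem.  Hence the answer to Q1 is no.

The points of the quadrangle are the `280` edges of the Gewirtz graph; its lines are the `56` vertices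
and `56` of the `112` sets of `20` vertices which induce a perfect matching and meet the neighbourhood
of every other vertex in five vertices.  The other `56` sets give a second generalized quadrangle with the
same points and with the same hemisystem; the automorphism interchanges the two families.
-/

set_option autoImplicit false

namespace Pool.Agent.Results.MP_d2fb05_co.SegreNotInduced

/-- `I` is (the incidence relation of) a generalized quadrangle of order `(s ^ 2, s)`. -/
structure IsGQ (s : ℕ) {P L : Type} (I : P → L → Prop) : Prop where
  /-- every line has `s ^ 2 + 1` points -/
  line_card : ∀ l : L, {p : P | I p l}.ncard = s ^ 2 + 1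
  /-- every point lies on `s + 1` lines -/
  point_card : ∀ p : P, {l : L | I p l}.ncard = s + 1
  /-- two points lie on at most one common line -/
  two_points : ∀ p q : P, p ≠ q → ∀ l m : L, I p l → I q l → I p m → I q m → l = m
  /-- for every point `p` not on the line `l` exactly one point of `l` is collinear with `p` -/
  exists_unique : ∀ (p : P) (l : L), ¬ I p l → ∃! q : P, I q l ∧ ∃ m : L, I p m ∧ I q m

/-- `H` is a hemisystem: every point lies on exactly `(s + 1) / 2` lines of `H`. -/
def IsHemisystem (s : ℕ) {P L : Type} (I : P → L → Prop) (H : Set L) : Prop :=
  ∀ p : P, {l : L | l ∈ H ∧ I p l}.ncard = (s + 1) / 2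

/-- The graph `Γ(H)`: the vertices are the lines of `H`, two different lines are adjacent when they meet
in a point. -/
def lineGraph {P L : Type} (I : P → L → Prop) (H : Set L) : SimpleGraph H where
  Adj l m := l ≠ m ∧ ∃ p : P, I p l ∧ I p m
  symm := ⟨fun _ _ h => ⟨h.1.symm, h.2.imp fun _ hp => ⟨hp.2, hp.1⟩⟩⟩
  loopless := ⟨fun _ h => h.1 rfl⟩

/-- The collineations: pairs of permutations of the points and of the lines preserving incidence. -/
structure Collineation {P L : Type} (I : P → L → Prop) where
  /-- the permutation of the points -/
  points : P ≃ P
  /-- the permutation of the lines -/
  lines : L ≃ L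
  /-- incidence is preserved -/
  incidence : ∀ (p : P) (l : L), I (points p) (lines l) ↔ I p l

/-- The collineation `φ` fixes the set `H` of lines. -/
def Fixes {P L : Type} {I : P → L → Prop} (φ : Collineation I) (H : Set L) : Prop :=
  φ.lines '' H = H

/-- The statement of Q1: for every generalized quadrangle of order `(s ^ 2, s)`, `s` odd, and every
hemisystem `H` of it, every automorphism of `Γ(H)` is the restriction to `H` of a collineation fixing
`H`. -/
def Q1 : Prop :=
  ∀ s : ℕ, Odd s → ∀ (P L : Type) [Finite P] [Finite L] (I : P → L → Prop), IsGQ s I →
    ∀ H : Set L, IsHemisystem s I H → ∀ g : lineGraph I H ≃g lineGraph I H,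
      ∃ φ : Collineation I, Fixes φ H ∧ ∀ l : H, φ.lines l = g l

/-! ### The data -/

/-- the incidences, `280` bits for each of the `112` lines -/
def big : ℕ := 0x204000a0000000200100000001080000000000000000000008000000400000000000090000000000000000100200000000800000000000000400040040001000080000000000400001000c0000000004000000000020401001000000000000100000000000000004008000100000010000000000000000000080000000800100004000020080000000000000000000020010000000000080100000000100004008000000000110000004000000001001000000800800020000000020000800002000000000000004004000000000000000000004000800000000000110000000000100408000000000000008008100000000000000000004110000100000082000000000082000008000000000000001000000000000080200800000000400000000200000200000040000000000000010000020040000000010000400000000000011000040000000000010000000008080000200000020000000000000000082040200000000000010000000010000000200100001000000000100000000004000080000400020000000000000000100090000000000002000000040100000000004000000000000000800000080040480000000040000000800100000000000800000000000002001000000004000000000000000800000400000000000800004020210000000000000000000000000008000000000002004008020010000000020002010080000000001001000000000000004001008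000000000200000000000040000000400400200000000004001000002000800000000000000000000200000010000000000008082002000000020000000000000040000000050000000000000800000000020008008000004010000000000000004000008000000000400000800008001020010000000400000000000400000000000000000040100048000000000000000000000200000240008000020000040000008000004000000000800000000000010000200400000000080000010008000002000000000000800000200000200008000900000000800000000000020000000000002200008004000000000000000000001003000000000000010000201000200000000000010000002000000000100000000000000000040800000000004000001000200020000011000000008008000000000000828004004000001000000000000000000002000000000080004000000000100000000000000000000004000010040004000000020000040001008000000100000800008200000000000000000002000000140008000080000000000000400022000400000000100000004000000202020000000000000000000000000100000040000000000000200000040000000008000000c08200000000000080010000000000002000004000000000010000000000000000004000000082002000400010000000000008200000000000200000040040000000800010000400000000004004080000000000000010000000000202000000000004004000000000000021000000000000000400008000801000000000000080000002000000002000000000140008080200000000400000000000080000004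200000000000008002080000000000000000000000020010000004000004008000000080000000000010200000000000000004002000008020100000000004000000400000000010400000000000000020080401000004000000000000040000000000800040000000000080020000008000001000000600800000000000001000004000000000002000000180000080040000000800000009000000000000800000000000000000002000004010000210000000040000400000000010000000000000220002000000000000000008000000000000000000000083000000044004000002040008000000000000000000001000800000000008000000000000200000200000000400010002002000200000000000010000000002040002008010000000000001000000000002000000000108000000000000200000000000400002000010000008000000000000410000004000020080000000000200002000000000200000000400000040000000000002000020000010020000001000080100000004000100001000002001000000010000002000000000000000400000000000800000080000000800010000000020000010000020000000000000080020000002000404020000000020000020020010000000000000000000001010000000000000200000200000020000000080000000000004040000000000000040000080000000080040080010000800204000000000400100000002000000000000000044000000000000000400000400000010000000001008000040020020000000000000000000040000000000800080020800800020000010000204000000000000400000000000000000000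00100000800000100000004000010000000000000001000002000000100080000008000000000020400008200000000000040000000000000808000000000100004004000000000100100000000400100000000000020000020800000000000000000800000010800000000001040000020000001010000000000400000000102000200008000000100004000000000000000001000000000000400800000000000400080000000000810000800000080000001000000190000100040000000000200000000010000000080004000000000100004000000000004801080002004000008000000001000000400000000000000000000080000000000000a080800000440000000000100000000000000400000000000100000000000010000000601020110000000000000000800000000004000002000000000000800000000000000000000408002000040000000000000000000000040102000000000000400000080002001d0000040000040000000100000000002000000000000000000000000000000404000002005082400000000000000000008000000000000001010000800000000000000000000644000080100000004200000000000000000000000000000000004000000000000100012800002000000000000000000042000000020200800000000100000000000000000000e0004000000042000000004200000000200000000000000000000020000000000000001a00000108000020000000010000000000000000008080000000000000000002000000060200000200000000000000000008101200010000000000400000000000000000000001c0000000000010000000008001000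8000000800000000000000000002000000080000030000000020100011000000000000008010040000000000000000000000001000000000e2010000100000000080040000000000080000000000000002000000000000000000001e0000020000800000000000000000100000040000400000000000000000080000000001e000100200000000000200004000000000000000200008000000000000000000000000000000000002000002010200000000000200000010020001000000002004000000000018800000004000084000000000000000010000000800000001020000000000000000000788080000000080010000000000000000000000000000000000010010000000000000007800010800080000000000000000000000000004010000000000000000040000000000078108000000400000010000000000000000000200000000000080000000000000000000788004010000000000080000000000000000000000000001000000020000000000000007800000040400800000000000000080000400000400000000000000000000000000000078802000000040000400000000000000000000800000008000000000000000000000000780008000200000000000080000400002000000000000004000000000000000000000007c1000020000008000400000000000000000000080000000000000000000000000000003f0400000000000200000000000000000000200000000000800000000000000000000000fc0200000000000000004000204000000000000000000000000000000000000000000003c0010008002100000000001000000000000000000000400000000000000000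000000003e0000040000020040000000000000001000080000000000000000000000000000000001e0000200000000202000002000000400000000020000000000000000000000000000001f0000040001000000000010000000080000000000001000000000000000000000000000fc0000008080000000000800000000000000000000002000000000000000000000000003fe0000000000000000000000000000000400000000000000000000000000000000000001fc0040001000000000000000000000020000000000000000000000000000000000000003e0000008000000040010000004040000000000000000000000000000000000000000001fc0000010000000000000000002000100000000000000000000000000000000000000003f8000000008001008000000000000000000000000000000000000000000000000000000780000000002000400040000010080200000000000000000000000000000000000000007f80000000000000000000000000010001000000000000000000000000000000000000007f0000000080200000000000000000008000000000000000000000000000000000000000ffc0000000000000000000000000000000000000000000000000000000000000000000003f80000000200000000804000000000000000000000000000000000000000000000000007fe0000000000000000000000000000000000000000000000000000000000000000000001f80000000201004000080000000000000000000000000000000000000000000000000007fe0000000000000000000000000000000000000000000000000000000000000000000001fe0200008000000000000000000000000000000000000000000000000000000000000001fe0100000000000004000000000000000000000000000000000000000000000000000001ff0000002000000000000000000000000000000000000000000000000000000000000000ff80000000080000000000000000000000000000000000000000000000000000000000007fc0000000020000000000000000000000000000000000000000000000000000000000003fe0000400000000000000000000000000000000000000000000000000000000000000001ff80000000000000000000000000000000000000000000000000000000000000000000007fc0100000000000000000000000000000000000000000000000000000000000000000003ff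

/-- the set of the points of the line `l`, as a bit mask -/
def pl (l : ℕ) : ℕ := (big >>> (280 * l)) &&& (2 ^ 280 - 1)

/-- the permutation of the lines of the hemisystem -/
def tab : List ℕ := [15, 2, 1, 26, 52, 28, 21, 25, 27, 13, 45, 49, 12, 9, 44, 0, 42, 47, 18, 43, 22, 6, 20, 36, 48, 7, 3, 8, 5, 46, 35, 54, 34, 53, 32, 30, 23, 37, 38, 55, 51, 41, 16, 19, 14, 10, 29, 17, 24, 11, 50, 40, 4, 33, 31, 39]

/-- incidence -/
def I (p : Fin 280) (l : Fin 112) : Prop := (pl l).testBit p = true

instance (p : Fin 280) (l : Fin 112) : Decidable (I p l) := by unfold I; infer_instance

/-- the hemisystem -/
def H : Set (Fin 112) := {l | l.val < 56}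

/-- the permutation, on all lines -/
def pf (l : Fin 112) : Fin 112 := ⟨if l.val < 56 then tab.getD l 0 % 56 else l, by split <;> omega⟩


/-! ### Checks by computation -/

theorem pl_lt (l : ℕ) : pl l < 2 ^ 280 := by
  unfold pl
  exact lt_of_le_of_lt Nat.and_le_right (by norm_num)

/-- the union of the lines `m < n` through the point `p` -/
def col (p : ℕ) : ℕ → ℕ
  | 0 => 0
  | n + 1 => if (pl n).testBit p then col p n ||| pl n else col p n

theorem testBit_col (p q : ℕ) : ∀ n : ℕ,
    (col p n).testBit q = true ↔ ∃ m < n, (pl m).testBit p = true ∧ (pl m).testBit q = true := by
  intro n
  induction n with
  | zero => simp [col]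
  | succ n ih =>
    unfold col
    split
    · next h =>
      rw [Nat.testBit_or, Bool.or_eq_true, ih]
      constructor
      · rintro (⟨m, hm, h1, h2⟩ | h2)
        · exact ⟨m, by omega, h1, h2⟩
        · exact ⟨n, by omega, h, h2⟩
      · rintro ⟨m, hm, h1, h2⟩
        rcases Nat.lt_succ_iff_lt_or_eq.1 hm with hm | rfl
        · exact Or.inl ⟨m, hm, h1, h2⟩
        · exact Or.inr h2
    · next h =>
      rw [ih]
      constructor
      · rintro ⟨m, hm, h1, h2⟩
        exact ⟨m, by omega, h1, h2⟩
      · rintro ⟨m, hm, h1, h2⟩
        rcases Nat.lt_succ_iff_lt_or_eq.1 hm with hm | rfl
        · exact ⟨m, hm, h1, h2⟩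
        · exact absurd h1 h

/-- `x` is a power of two -/
def pow2 (x : ℕ) : Bool := x == 2 ^ x.log2

theorem testBit_of_pow2 {x : ℕ} (h : pow2 x = true) (q : ℕ) : x.testBit q = true ↔ q = x.log2 := by
  have h' : x = 2 ^ x.log2 := by simpa [pow2] using h
  constructor
  · intro hq
    rw [h', Nat.testBit_two_pow] at hq
    simpa using (of_decide_eq_true hq).symm
  · intro hq
    rw [h', Nat.testBit_two_pow]
    exact decide_eq_true hq.symm

/-- the check of the axiom on a point and a line not through it -/
def gqCheck : Bool :=
  (List.range 280).all fun p =>
    let c := col p 112
    (List.range 112).all fun l => (pl l).testBit p || pow2 (c &&& pl l)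

theorem gqCheck_true : gqCheck = true := by decide +kernel

/-- the check of the axiom on two lines -/
def twoCheck : Bool :=
  (List.range 112).all fun l => (List.range l).all fun m =>
    (pl l &&& pl m == 0) || pow2 (pl l &&& pl m)

theorem twoCheck_true : twoCheck = true := by decide +kernel

/-- number of the points of a line -/
def cntP (l : ℕ) : ℕ := (List.range 280).countP fun p => (pl l).testBit p

/-- number of the lines through a point -/
def cntL (p n : ℕ) : ℕ := (List.range n).countP fun l => (pl l).testBit p

theorem cntP_all : ((List.range 112).all fun l => cntP l == 10) = true := by decide +kernel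

theorem cntL_all : ((List.range 280).all fun p => cntL p 112 == 4 && cntL p 56 == 2) = true := by
  decide +kernel

theorem ncard_fin {n : ℕ} (f : ℕ → Bool) :
    {x : Fin n | f x = true}.ncard = (List.range n).countP f := by
  classical
  have h1 : {x : Fin n | f x = true} = ((Finset.univ.filter fun x : Fin n => f x = true) : Set (Fin n)) := by
    ext x; simp
  rw [h1, Set.ncard_coe_finset]
  have h2 : (Finset.univ.filter fun x : Fin n => f x = true).card =
      ((Finset.range n).filter fun x => f x = true).card := by
    rw [← Finset.card_map Fin.valEmbedding]
    congr 1
    ext x
    simp only [Finset.mem_map, Finset.mem_filter, Finset.mem_univ, true_and, Fin.valEmbedding_apply,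
      Finset.mem_range]
    constructor
    · rintro ⟨a, ha, rfl⟩; exact ⟨a.2, ha⟩
    · rintro ⟨hx, ha⟩; exact ⟨⟨x, hx⟩, ha, rfl⟩
  rw [h2]
  clear h1 h2
  induction n with
  | zero => simp
  | succ n ih =>
    rw [List.range_succ, List.countP_append, ← ih, Finset.range_add_one, Finset.filter_insert]
    split
    · next h =>
      rw [Finset.card_insert_of_notMem (by simp)]
      simp [h]
    · next h => simp [h]

theorem isGQ : IsGQ 3 I where
  line_card l := by
    have h := List.all_eq_true.1 cntP_all l.val (List.mem_range.2 l.2)
    have h' : cntP l.val = 10 := by simpa using h
    have := ncard_fin (n := 280) (fun p => (pl l.val).testBit p)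
    unfold I
    rw [this]
    exact h'
  point_card p := by
    have h := List.all_eq_true.1 cntL_all p.val (List.mem_range.2 p.2)
    have h' : cntL p.val 112 = 4 := by
      simp only [Bool.and_eq_true, beq_iff_eq] at h
      exact h.1
    have := ncard_fin (n := 112) (fun l => (pl l).testBit p.val)
    unfold I
    rw [this]
    exact h'
  two_points p q hpq l m h1 h2 h3 h4 := by
    by_contra hlm
    have key : ∀ a b : ℕ, a < 112 → b < a → (pl a).testBit p.val = true → (pl a).testBit q.val = true →
        (pl b).testBit p.val = true → (pl b).testBit q.val = true → False := by
      intro a b ha hb e1 e2 e3 e4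
      have h := List.all_eq_true.1 (List.all_eq_true.1 twoCheck_true a (List.mem_range.2 ha)) b
        (List.mem_range.2 hb)
      have f1 : (pl a &&& pl b).testBit p.val = true := by rw [Nat.testBit_and, e1, e3]; rfl
      have f2 : (pl a &&& pl b).testBit q.val = true := by rw [Nat.testBit_and, e2, e4]; rfl
      rcases Bool.or_eq_true _ _ ▸ h with h | h
      · have h0 : pl a &&& pl b = 0 := by simpa using h
        rw [h0] at f1
        simp at f1
      · have g1 := (testBit_of_pow2 h p.val).1 f1
        have g2 := (testBit_of_pow2 h q.val).1 f2
        exact hpq (Fin.ext (g1.trans g2.symm))
    rcases lt_trichotomy l.val m.val with h | h | h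
    · exact key m.val l.val m.2 h h3 h4 h1 h2
    · exact hlm (Fin.ext h)
    · exact key l.val m.val l.2 h h1 h2 h3 h4
  exists_unique p l hpl := by
    have h := List.all_eq_true.1 (List.all_eq_true.1 gqCheck_true p.val (List.mem_range.2 p.2)) l.val
      (List.mem_range.2 l.2)
    have h' : pow2 (col p.val 112 &&& pl l.val) = true := by
      rcases Bool.or_eq_true _ _ ▸ h with h | h
      · exact absurd h hpl
      · exact h
    have hiff : ∀ q : Fin 280, (I q l ∧ ∃ m : Fin 112, I p m ∧ I q m) ↔
        q.val = (col p.val 112 &&& pl l.val).log2 := by
      intro q
      rw [← testBit_of_pow2 h' q.val, Nat.testBit_and, Bool.and_eq_true, testBit_col]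
      constructor
      · rintro ⟨h1, m, h2, h3⟩
        exact ⟨⟨m.val, m.2, h2, h3⟩, h1⟩
      · rintro ⟨⟨m, hm, h2, h3⟩, h1⟩
        exact ⟨h1, ⟨m, hm⟩, h2, h3⟩
    have hlt : (col p.val 112 &&& pl l.val).log2 < 280 := by
      by_contra hge
      have e : (col p.val 112 &&& pl l.val) = 2 ^ (col p.val 112 &&& pl l.val).log2 := by
        simpa [pow2] using h'
      have e1 : (col p.val 112 &&& pl l.val) < 2 ^ 280 := lt_of_le_of_lt Nat.and_le_right (pl_lt _)
      have e2 : 2 ^ 280 ≤ 2 ^ (col p.val 112 &&& pl l.val).log2 :=
        Nat.pow_le_pow_right (by norm_num) (by omega)
      omega
    refine ⟨⟨_, hlt⟩, (hiff _).2 rfl, ?_⟩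
    intro q hq
    exact Fin.ext ((hiff q).1 hq)

theorem isHemi : IsHemisystem 3 I H := by
  intro p
  have h := List.all_eq_true.1 cntL_all p.val (List.mem_range.2 p.2)
  have h' : cntL p.val 56 = 2 := by
    simp only [Bool.and_eq_true, beq_iff_eq] at h
    exact h.2
  have e : {l : Fin 112 | l ∈ H ∧ I p l} =
      {l : Fin 112 | (fun l : ℕ => decide (l < 56) && (pl l).testBit p.val) l = true} := by
    ext l
    simp [H, I]
  have e3 := ncard_fin (n := 112) (fun l : ℕ => decide (l < 56) && (pl l).testBit p.val)
  rw [e]
  refine e3.trans ?_
  have e2 : (List.range 112).countP (fun l : ℕ => decide (l < 56) && (pl l).testBit p.val) =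
      cntL p.val 56 := by
    have : List.range 112 = List.range 56 ++ (List.range 56).map (56 + ·) := by
      rw [← List.range_add]
    rw [this, List.countP_append, cntL]
    have z : (List.map (fun x => 56 + x) (List.range 56)).countP
        (fun l : ℕ => decide (l < 56) && (pl l).testBit p.val) = 0 := by
      rw [List.countP_eq_zero]
      intro a ha
      obtain ⟨b, _, rfl⟩ := List.mem_map.1 ha
      simp
    rw [z, add_zero]
    apply List.countP_congr
    intro a ha
    have := List.mem_range.1 ha
    simp [this]
  rw [e2, h']

theorem meet_iff (l m : Fin 112) : (∃ p : Fin 280, I p l ∧ I p m) ↔ pl l.val &&& pl m.val ≠ 0 := by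
  constructor
  · rintro ⟨p, h1, h2⟩ h0
    have : (pl l.val &&& pl m.val).testBit p.val = true := by
      rw [Nat.testBit_and]; unfold I at h1 h2; rw [h1, h2]; rfl
    rw [h0] at this
    simp at this
  · intro h
    obtain ⟨i, hi⟩ := Nat.exists_testBit_of_ne_zero h
    have hlt : i < 280 := by
      by_contra hge
      have := Nat.testBit_lt_two_pow (x := pl l.val &&& pl m.val) (i := i)
        (lt_of_lt_of_le (lt_of_le_of_lt Nat.and_le_right (pl_lt _))
          (Nat.pow_le_pow_right (by norm_num) (by omega)))
      rw [this] at hi
      exact absurd hi (by simp)
    rw [Nat.testBit_and, Bool.and_eq_true] at hi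
    exact ⟨⟨i, hlt⟩, hi.1, hi.2⟩

theorem pf_invol : Function.Involutive pf := by
  intro l
  revert l
  decide +kernel

theorem pf_mem (l : Fin 112) : pf l ∈ H ↔ l ∈ H := by
  have : ∀ l : Fin 112, (pf l).val < 56 ↔ l.val < 56 := by decide +kernel
  exact this l

/-- adjacency is preserved by the permutation -/
def adjCheck : Bool :=
  (List.range 56).all fun l => (List.range 56).all fun m =>
    (pl l &&& pl m == 0) == (pl (tab.getD l 0 % 56) &&& pl (tab.getD m 0 % 56) == 0)

theorem adjCheck_true : adjCheck = true := by decide +kernel

/-- the family of sets is not preserved -/
def famCheck : Bool :=
  (List.range 56).all fun m => (List.range 56).any fun l =>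
    (pl l &&& pl 56 == 0) != (pl (tab.getD l 0 % 56) &&& pl (56 + m) == 0)

theorem famCheck_true : famCheck = true := by decide +kernel

theorem pf_val {l : Fin 112} (h : l ∈ H) : (pf l).val = tab.getD l.val 0 % 56 := by
  have h' : l.val < 56 := h
  simp [pf, h']

/-- the permutation of the lines of the hemisystem -/
def pH : H ≃ H where
  toFun l := ⟨pf l.1, (pf_mem l.1).2 l.2⟩
  invFun l := ⟨pf l.1, (pf_mem l.1).2 l.2⟩
  left_inv l := Subtype.ext (pf_invol l.1)
  right_inv l := Subtype.ext (pf_invol l.1)

/-- the automorphism of the graph -/
def gIso : lineGraph I H ≃g lineGraph I H where
  toEquiv := pH
  map_rel_iff' := by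
    intro l m
    have key : (∃ p : Fin 280, I p (pf l.1) ∧ I p (pf m.1)) ↔ ∃ p : Fin 280, I p l.1 ∧ I p m.1 := by
      rw [meet_iff, meet_iff, pf_val l.2, pf_val m.2]
      have h := List.all_eq_true.1 (List.all_eq_true.1 adjCheck_true l.1.val
        (List.mem_range.2 l.2)) m.1.val (List.mem_range.2 m.2)
      have h' : (pl l.1.val &&& pl m.1.val = 0) ↔
          (pl (tab.getD l.1.val 0 % 56) &&& pl (tab.getD m.1.val 0 % 56) = 0) := by
        rw [beq_iff_eq] at h
        rw [← beq_iff_eq, ← beq_iff_eq (a := pl (tab.getD l.1.val 0 % 56) &&& _), h]
      exact not_congr h'.symm
    change (pH l ≠ pH m ∧ ∃ p : Fin 280, I p (pf l.1) ∧ I p (pf m.1)) ↔ (l ≠ m ∧ ∃ p, I p l.1 ∧ I p m.1)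
    rw [key, ne_eq, ne_eq, pH.injective.eq_iff]

theorem not_induced (φ : Collineation I) (hφ : Fixes φ H) : ∃ l : H, φ.lines l ≠ gIso l := by
  by_contra hcon
  push Not at hcon
  let m0 : Fin 112 := ⟨56, by norm_num⟩
  have hm0 : m0 ∉ H := by simp [H, m0]
  have hm1 : φ.lines m0 ∉ H := by
    intro h
    rw [← hφ] at h
    obtain ⟨x, hx, hx2⟩ := h
    exact hm0 (φ.lines.injective hx2 ▸ hx)
  have hval : 56 ≤ (φ.lines m0).val := not_lt.1 hm1
  have hlt := (φ.lines m0).2
  obtain ⟨l, hl, hne⟩ := List.any_eq_true.1 (List.all_eq_true.1 famCheck_true ((φ.lines m0).val - 56)
    (List.mem_range.2 (by omega)))
  rw [List.mem_range] at hl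
  have e56 : 56 + ((φ.lines m0).val - 56) = (φ.lines m0).val := by omega
  rw [e56] at hne
  let l' : Fin 112 := ⟨l, by omega⟩
  have hl' : l' ∈ H := hl
  have himg : φ.lines l' = pf l' := hcon ⟨l', hl'⟩
  have hmeet : (∃ p : Fin 280, I p (φ.lines l') ∧ I p (φ.lines m0)) ↔
      ∃ p : Fin 280, I p l' ∧ I p m0 := by
    constructor
    · rintro ⟨p, h1, h2⟩
      refine ⟨φ.points.symm p, ?_, ?_⟩
      · rw [← φ.incidence]; simpa using h1
      · rw [← φ.incidence]; simpa using h2
    · rintro ⟨p, h1, h2⟩
      exact ⟨φ.points p, (φ.incidence _ _).2 h1, (φ.incidence _ _).2 h2⟩
  rw [himg, meet_iff, meet_iff, pf_val hl'] at hmeet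
  have h' := not_congr hmeet
  rw [not_not, not_not] at h'
  simp only [bne_iff_ne, ne_eq] at hne
  apply hne
  rw [Bool.eq_iff_iff, beq_iff_eq, beq_iff_eq]
  exact h'.symm

theorem gIso_invol (l : H) : gIso (gIso l) = l := Subtype.ext (pf_invol l.1)

/-- **Main theorem.** There are a generalized quadrangle of order `(9, 3)`, a hemisystem `H` of it and an
automorphism of order two of the graph `Γ(H)` which is not the restriction of a collineation fixing `H`.
Hence the statement of Q1 is false. -/
theorem result :
    (∃ (P L : Type) (_ : Finite P) (_ : Finite L) (I : P → L → Prop) (H : Set L),
      IsGQ 3 I ∧ IsHemisystem 3 I H ∧ ∃ g : lineGraph I H ≃g lineGraph I H, (∀ l, g (g l) = l) ∧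
        ∀ φ : Collineation I, Fixes φ H → ∃ l : H, φ.lines l ≠ g l) ∧
    ¬ Q1 := by
  refine ⟨⟨Fin 280, Fin 112, inferInstance, inferInstance, I, H, isGQ, isHemi, gIso, gIso_invol,
    not_induced⟩, ?_⟩
  intro hQ
  obtain ⟨φ, hφ, h⟩ := hQ 3 (by decide) (Fin 280) (Fin 112) I isGQ H isHemi gIso
  obtain ⟨l, hl⟩ := not_induced φ hφ
  exact hl (h l)

end Pool.Agent.Results.MP_d2fb05_co.SegreNotInduced
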